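import Pool.Agent.X245.EB.Hard
import Pool.Agent.X245.EB.Exp

/-!
# The outcome of Edge Blocking on general directed graphs is EXPTIME-complete

For each of the three outcomes.  The lower bound is a reduction from alternating register machines
(`Pool.Agent.X245.EB`): Left simulates the machine on regions which only Left can change, and Right
challenges by bringing the control token to a vertex from which Left must move it into a region.
The upper bound is backward induction.
-/

set_option autoImplicit false

namespace Pool.Agent.Results.MP_817c3f_lc.ExptimeComplete

open Pool.Agent.NPC Pool.Agent.X245.EB Pool.Agent.H820R2.SS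

/-- Completeness for `EXPTIME` under polynomial-time many-one reductions. -/
def Complete (L : Set (List Bool)) : Prop :=
  InEXPTIME L ∧ ∀ L' : Set (List Bool), InEXPTIME L' → Reduces L' L

/-- The outcome problem: the positions of Edge Blocking which have the outcome `W`. -/
def Outcome (W : Pos → Prop) : Set (List Bool) := lang (fun A : Pos => IsPosition A ∧ W A)

/-- **Deciding the outcome of a position of Edge Blocking on general directed graphs is
`EXPTIME`-complete**, for each of the three outcomes (the player to move can force a win, the other
player can force a win, neither can). Hence none of these three problems is in `P`. -/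
theorem result (W : Pos → Prop) (hW : W = MoverWins ∨ W = OtherWins ∨ W = Drawn) :
    Complete (Outcome W) ∧ ¬ InP (Outcome W) := by
  have h : Complete (Outcome W) := ⟨(exp_of hW).inEXPTIME, fun L' hL' => hard_of hW hL'⟩
  refine ⟨h, fun hP => ?_⟩
  obtain ⟨L', h1, h2⟩ := exists_exptime_not_p
  exact h2 (InP.of_reduces (h.2 L' h1) hP)

end Pool.Agent.Results.MP_817c3f_lc.ExptimeComplete
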